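import Mathlib

open Filter Topology Complex

namespace Pool.Agent.Results.MP_b83ca4_nt.Both

/-- points of the triangular lattice -/
noncomputable def lat (a b : ℤ) : ℂ := a + b * (1 / 2 + √3 / 2 * I)

/-- union of rotated and translated copies -/
def TBG {k : ℕ} (θ : Fin k → ℝ) (x : Fin k → ℂ) : Set ℂ :=
  {y | ∃ i : Fin k, ∃ a b : ℤ, y = exp (θ i * I) * lat a b + x i}

def DenseForest (D : Set ℂ) : Prop :=
  ∀ ε : ℝ, 0 < ε → ∃ V : ℝ, 0 < V ∧ ∀ p q : ℂ, dist p q = V →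
    ∃ z ∈ segment ℝ p q, ∃ y ∈ D, dist z y < ε

def UnifDiscrete (D : Set ℂ) : Prop :=
  ∃ r : ℝ, 0 < r ∧ ∀ p ∈ D, ∀ q ∈ D, p ≠ q → r ≤ dist p q

theorem lat_re (a b : ℤ) : (lat a b).re = a + b / 2 := by simp [lat]; ring

theorem lat_im (a b : ℤ) : (lat a b).im = b * (√3 / 2) := by simp [lat]

theorem lat_add (a b c d : ℤ) : lat (a + c) (b + d) = lat a b + lat c d := by
  simp only [lat]; push_cast; ring

theorem near (z : ℂ) : ∃ a b : ℤ, ‖z - lat a b‖ ≤ 2 := by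
  have h3 : (0 : ℝ) < √3 / 2 := by positivity
  have h4 : √3 / 2 ≤ (1 : ℝ) := by
    have : √3 ≤ (2 : ℝ) := Real.sqrt_le_iff.2 ⟨by norm_num, by norm_num⟩
    linarith
  refine ⟨⌊z.re - (⌊z.im / (√3 / 2)⌋ : ℝ) / 2⌋, ⌊z.im / (√3 / 2)⌋,
    (norm_le_abs_re_add_abs_im _).trans ?_⟩
  rw [sub_re, sub_im, lat_re, lat_im]
  have a1 := Int.floor_le (z.re - (⌊z.im / (√3 / 2)⌋ : ℝ) / 2)
  have a2 := Int.lt_floor_add_one (z.re - (⌊z.im / (√3 / 2)⌋ : ℝ) / 2)
  have a3 := Int.floor_le (z.im / (√3 / 2))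
  have a4 := Int.lt_floor_add_one (z.im / (√3 / 2))
  rw [le_div_iff₀ h3] at a3
  rw [div_lt_iff₀ h3] at a4
  have b1 : |z.re - (⌊z.re - (⌊z.im / (√3 / 2)⌋ : ℝ) / 2⌋ + (⌊z.im / (√3 / 2)⌋ : ℝ) / 2)| ≤ 1 := by
    rw [abs_le]; constructor <;> linarith
  have b2 : |z.im - (⌊z.im / (√3 / 2)⌋ : ℝ) * (√3 / 2)| ≤ 1 := by
    rw [abs_le]; constructor <;> linarith
  linarith

theorem kron (w y : ℂ) (hw : ∀ a b : ℤ, (lat a b * (starRingEnd ℂ) w).im = 0 → a = 0 ∧ b = 0)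
    (hn : ‖w‖ = 1) (η : ℝ) (hη : 0 < η) : ∃ t : ℝ, ∃ a b : ℤ, ‖y + t * w - lat a b‖ < η := by
  obtain ⟨A, hA⟩ : ∃ A, A = (lat 1 0 * (starRingEnd ℂ) w).im := ⟨_, rfl⟩
  obtain ⟨B, hB⟩ : ∃ B, B = (lat 0 1 * (starRingEnd ℂ) w).im := ⟨_, rfl⟩
  have hl : ∀ a b : ℤ, (lat a b * (starRingEnd ℂ) w).im = a * A + b * B := by
    intro a b
    rw [hA, hB]
    simp only [mul_im, lat_re, lat_im]
    push_cast
    ring
  have hB0 : B ≠ 0 := fun h => by simpa using (hw 0 1 (by rw [hl, h]; simp)).2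
  have hirr : Irrational (A / B) := by
    rintro ⟨r, hr⟩
    have h1 : (r.den : ℝ) ≠ 0 := by exact_mod_cast r.den_ne_zero
    rw [Rat.cast_def, div_eq_div_iff h1 hB0] at hr
    have := (hw r.den (-r.num) (by rw [hl]; push_cast; linarith)).1
    exact r.den_ne_zero (by exact_mod_cast this)
  obtain ⟨s, hs, hd⟩ := Metric.mem_closure_iff.1
    (dense_addSubgroupClosure_pair_iff.2 hirr (y * (starRingEnd ℂ) w).im) η hη
  obtain ⟨a, b, rfl⟩ := AddSubgroup.mem_closure_pair.1 hs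
  refine ⟨-((y - lat a b) * (starRingEnd ℂ) w).re, a, b, ?_⟩
  have hc : w * (starRingEnd ℂ) w = 1 := by rw [mul_conj, normSq_eq_norm_sq, hn]; simp
  have e : y + ((-((y - lat a b) * (starRingEnd ℂ) w).re : ℝ) : ℂ) * w - lat a b
      = (((y - lat a b) * (starRingEnd ℂ) w).im * I) * w := by
    have := re_add_im ((y - lat a b) * (starRingEnd ℂ) w)
    push_cast
    linear_combination (-w) * this - (y - lat a b) * hc
  rw [e, norm_mul, norm_mul, hn, norm_I, mul_one, mul_one, norm_real, Real.norm_eq_abs, sub_mul,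
    sub_im, hl]
  simpa [Real.dist_eq] using hd

theorem forest {k : ℕ} (θ : Fin k → ℝ) (x : Fin k → ℂ)
    (h : ∀ v : ℂ, ‖v‖ = 1 → ∃ i, ∀ a b : ℤ,
      (exp (θ i * I) * lat a b * (starRingEnd ℂ) v).im = 0 → a = 0 ∧ b = 0) :
    DenseForest (TBG θ x) := by
  intro ε hε
  by_contra hc
  push Not at hc
  choose p q hpq hfar using fun n : ℕ => hc (2 * (n + 1)) (by positivity)
  have he : ∀ i, ‖exp (θ i * I)‖ = 1 := fun i => norm_exp_ofReal_mul_I _
  have he0 : ∀ i, exp (θ i * I) ≠ 0 := fun i => exp_ne_zero _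
  choose a b hab using fun (n : ℕ) (i : Fin k) => near (((p n + q n) / 2 - x i) / exp (θ i * I))
  let v : ℕ → ℂ := fun n => (q n - p n) / (2 * (n + 1))
  have hv : ∀ n, ‖v n‖ = 1 := by
    intro n
    have h1 := hpq n
    rw [dist_comm, dist_eq_norm] at h1
    have : ‖(2 * (n + 1) : ℂ)‖ = 2 * (n + 1) := by
      rw [show (2 * (n + 1) : ℂ) = ((2 * (n + 1) : ℝ) : ℂ) by push_cast; ring, norm_real,
        Real.norm_eq_abs, abs_of_pos (by positivity)]
    simp only [v]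
    rw [norm_div, h1, this, div_self (by positivity)]
  obtain ⟨⟨v0, y0⟩, hmem, φ, hφ, hlim⟩ :=
    ((isCompact_sphere (0 : ℂ) 1).prod (isCompact_closedBall (0 : Fin k → ℂ) 2)).tendsto_subseq
    (x := fun n : ℕ => (v n, fun i => ((p n + q n) / 2 - x i) / exp (θ i * I) - lat (a n i) (b n i)))
    (fun n => ⟨by simpa using hv n, by
      rw [mem_closedBall_zero_iff, pi_norm_le_iff_of_nonneg (by norm_num)]
      exact hab n⟩)
  have hv0 : ‖v0‖ = 1 := by simpa using hmem.1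
  obtain ⟨i, hi⟩ := h v0 hv0
  obtain ⟨t, c, d, ht⟩ := kron (v0 / exp (θ i * I)) (y0 i) (fun a b h0 => hi a b (by
    rw [← h0, map_div₀, ← exp_conj]
    simp only [map_mul, conj_ofReal, conj_I, mul_neg, exp_neg]
    congr 1
    field_simp)) (by rw [norm_div, hv0, he, div_one]) ε hε
  have l1 : Tendsto (fun n => v (φ n)) atTop (𝓝 v0) := (continuous_fst.tendsto _).comp hlim
  have l2 : Tendsto (fun n => ((p (φ n) + q (φ n)) / 2 - x i) / exp (θ i * I)
      - lat (a (φ n) i) (b (φ n) i)) atTop (𝓝 (y0 i)) :=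
    (((continuous_apply i).comp continuous_snd).tendsto _).comp hlim
  have l3 := ((l2.add ((l1.div_const (exp (θ i * I))).const_mul (t : ℂ))).sub_const
    (lat c d)).norm
  obtain ⟨M, hM⟩ := exists_nat_ge |t|
  obtain ⟨n, hn1, hn2⟩ := ((l3.eventually (gt_mem_nhds ht)).and (eventually_ge_atTop M)).exists
  have hn3 : |t| ≤ φ n := hM.trans (by exact_mod_cast hn2.trans hφ.le_apply)
  obtain ⟨m, hm⟩ : ∃ m, m = φ n := ⟨_, rfl⟩
  rw [← hm] at hn1 hn3
  have hpos : (0 : ℝ) < 2 * (m + 1) := by positivity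
  have ht2 := abs_le.1 hn3
  have := hfar m ((p m + q m) / 2 + t * v m)
    ⟨1 / 2 - t / (2 * (m + 1)), 1 / 2 + t / (2 * (m + 1)), by
      rw [sub_nonneg, div_le_iff₀ hpos]; linarith [ht2.2], by
      rw [← neg_le_iff_add_nonneg', le_div_iff₀ hpos]; linarith [ht2.1], by ring, by
      simp only [v, real_smul]; push_cast; ring⟩
    (exp (θ i * I) * lat (a m i + c) (b m i + d) + x i) ⟨i, _, _, rfl⟩
  rw [dist_eq_norm] at this
  have e : (p m + q m) / 2 + t * v m - (exp (θ i * I) * lat (a m i + c) (b m i + d) + x i)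
      = exp (θ i * I) * (((p m + q m) / 2 - x i) / exp (θ i * I) - lat (a m i) (b m i)
        + t * (v m / exp (θ i * I)) - lat c d) := by
    have := he0 i
    rw [lat_add]; field_simp; ring
  rw [e, norm_mul, he, one_mul] at this
  linarith

theorem cnt (z : ℂ) (hz : z ≠ 0) : {φ : ℝ | (exp (φ * I) * z).im = 0}.Countable := by
  have h1 : ({(‖z‖ : ℂ) / z, -(‖z‖ : ℂ) / z} : Set ℂ).Countable := Set.toFinite _ |>.countable
  have h2 := (countable_preimage_exp.2 h1).preimage_of_injOn (f := fun φ : ℝ => (φ : ℂ) * I)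
    (fun a _ b _ hab => by simpa using hab)
  refine h2.mono fun φ hφ => ?_
  have h3 : |(exp (φ * I) * z).re| = ‖z‖ := by
    rw [abs_re_eq_norm.2 hφ, norm_mul, norm_exp_ofReal_mul_I, one_mul]
  have h4 : exp (φ * I) * z = ((exp (φ * I) * z).re : ℂ) := by
    apply Complex.ext
    · rfl
    · exact hφ
  rcases abs_eq (norm_nonneg z) |>.1 h3 with h5 | h5
  · left
    rw [eq_div_iff hz, h4, h5]
  · right
    rw [Set.mem_singleton_iff, eq_div_iff hz, h4, h5]
    simp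

theorem lat_ne {a b : ℤ} (h : ¬ (a = 0 ∧ b = 0)) : lat a b ≠ 0 := by
  intro h0
  have h1 := lat_im a b
  have h2 := lat_re a b
  rw [h0] at h1 h2
  have hb : b = 0 := by
    have : (0 : ℝ) < √3 / 2 := by positivity
    exact_mod_cast (mul_eq_zero.1 h1.symm).resolve_right this.ne'
  subst hb
  exact h ⟨by simpa using h2.symm, rfl⟩

theorem lat_mul (a b c d : ℤ) :
    lat a b * lat c d = lat (a * c - b * d) (a * d + b * c + b * d) := by
  have h3 : ((√3 : ℝ) : ℂ) ^ 2 = 3 := by exact_mod_cast Real.sq_sqrt (by norm_num : (0 : ℝ) ≤ 3)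
  simp only [lat]
  push_cast
  linear_combination (b * d / 4 * I ^ 2) * h3 + (3 * b * d / 4) * I_sq

theorem lat_int (n : ℤ) : lat n 0 = n := by simp [lat]

theorem lat_sub (a b c d : ℤ) : lat (a - c) (b - d) = lat a b - lat c d := by
  simp only [lat]; push_cast; ring

theorem exists_two : ∃ (θ : Fin 2 → ℝ) (x : Fin 2 → ℂ), DenseForest (TBG θ x) := by
  let C : Set ℝ := ⋃ a : ℤ, ⋃ b : ℤ, ⋃ c : ℤ, ⋃ d : ℤ, ⋃ _ : lat a b / lat c d ≠ 0,
    {φ : ℝ | (exp (φ * I) * (lat a b / lat c d)).im = 0}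
  have hC : C.Countable := Set.countable_iUnion fun a => Set.countable_iUnion fun b =>
    Set.countable_iUnion fun c => Set.countable_iUnion fun d => Set.countable_iUnion fun h =>
      cnt _ h
  obtain ⟨φ, hφ⟩ : ∃ φ, φ ∉ C := by
    by_contra h
    push Not at h
    exact Cardinal.not_countable_real (hC.mono fun φ _ => h φ)
  refine ⟨![φ, 0], 0, forest _ _ fun v hv => ?_⟩
  by_contra hc
  push Not at hc
  obtain ⟨a, b, h2, h3⟩ := hc 0
  obtain ⟨c, d, h4, h5⟩ := hc 1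
  have n1 : lat a b ≠ 0 := lat_ne fun h => h3 h.1 h.2
  have n2 : lat c d ≠ 0 := lat_ne fun h => h5 h.1 h.2
  refine hφ ?_
  simp only [C, Set.mem_iUnion]
  refine ⟨a, b, c, d, div_ne_zero n1 n2, ?_⟩
  have hv0 : (starRingEnd ℂ) v ≠ 0 := by
    intro h
    have : v = 0 := by simpa using h
    simp [this] at hv
  have e : exp (φ * I) * (lat a b / lat c d)
      = (exp (φ * I) * lat a b * (starRingEnd ℂ) v) / (lat c d * (starRingEnd ℂ) v) := by
    field_simp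
  have h2' : (exp (φ * I) * lat a b * (starRingEnd ℂ) v).im = 0 := h2
  have h4' : (lat c d * (starRingEnd ℂ) v).im = 0 := by
    have : (exp (((0 : ℝ) : ℂ) * I) * lat c d * (starRingEnd ℂ) v).im = 0 := h4
    rwa [ofReal_zero, zero_mul, exp_zero, one_mul] at this
  show (exp (φ * I) * (lat a b / lat c d)).im = 0
  rw [e, div_im, h2', h4']
  simp

theorem not_forest {k : ℕ} (θ : Fin k → ℝ) (x : Fin k → ℂ) (u : ℂ) (hu : ‖u‖ = 1) (N : ℕ)
    (hN : 0 < N) (h : ∀ i, ∃ c d : ℤ, N * exp (θ i * I) = u * lat c d) :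
    ¬ DenseForest (TBG θ x) := by
  intro hD
  have hu0 : u ≠ 0 := by rintro rfl; simp at hu
  have hN' : (0 : ℝ) < N := by exact_mod_cast hN
  have h3 : (0 : ℝ) < √3 / 2 / N := by positivity
  let F : Set ℝ := ⋃ i, (fun t => (t - (x i / u).im) / (√3 / 2 / N)) ⁻¹' Set.range ((↑) : ℤ → ℝ)
  have hF : IsClosed F := isClosed_iUnion_of_finite fun i =>
    Int.isClosedEmbedding_coe_real.isClosed_range.preimage (by fun_prop)
  have hFc : F.Countable := Set.countable_iUnion fun i =>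
    (Set.countable_range _).preimage_of_injOn fun a _ b _ hab => by
      have := (div_left_inj' h3.ne').1 hab
      linarith
  obtain ⟨t, ht⟩ : ∃ t, t ∉ F := by
    by_contra h
    push Not at h
    exact Cardinal.not_countable_real (hFc.mono fun φ _ => h φ)
  obtain ⟨ε, hε, hb⟩ := Metric.isOpen_iff.1 hF.isOpen_compl t ht
  obtain ⟨V, hV, hs⟩ := hD ε hε
  obtain ⟨z, ⟨α, β, -, -, hαβ, rfl⟩, y, ⟨i, a, b, rfl⟩, hd⟩ := hs (u * (t * I)) (u * (t * I + V)) (by
    rw [dist_comm, dist_eq_norm, ← mul_sub, add_sub_cancel_left, norm_mul, hu, one_mul, norm_real,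
      Real.norm_of_nonneg hV.le])
  obtain ⟨c, d, hcd⟩ := h i
  have e1 : exp (θ i * I) = u * lat c d / N := by
    rw [← hcd, mul_div_cancel_left₀]
    exact_mod_cast hN.ne'
  have e2 : α • (u * (t * I)) + β • (u * (t * I + V)) - (exp (θ i * I) * lat a b + x i) =
      u * (t * I + (β * V : ℝ) - (lat c d * lat a b / (N : ℝ) + x i / u)) := by
    have : (α : ℂ) = 1 - β := by
      rw [eq_sub_iff_add_eq]; exact_mod_cast hαβ
    rw [e1, real_smul, real_smul, this]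
    push_cast
    field_simp
    ring
  rw [dist_eq_norm, e2, norm_mul, hu, one_mul] at hd
  have h5 := (abs_im_le_norm _).trans_lt hd
  rw [lat_mul] at h5
  simp only [sub_im, add_im, mul_im, ofReal_re, I_im, ofReal_im, I_re, div_ofReal_im, lat_im,
    mul_one, mul_zero, add_zero] at h5
  refine hb (show ((c * b + d * a + d * b : ℤ) : ℝ) * (√3 / 2) / N + (x i / u).im ∈ Metric.ball t ε by
    rw [Metric.mem_ball, dist_comm, Real.dist_eq]; exact h5) ?_
  refine Set.mem_iUnion.2 ⟨i, c * b + d * a + d * b, ?_⟩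
  simp only []
  rw [add_sub_cancel_right, eq_div_iff h3.ne']
  ring

theorem dense_sum (z : ℂ) (hz : ∀ n : ℕ, 0 < n → ∀ a b : ℤ, n * z ≠ lat a b) (w : ℂ) (r : ℝ)
    (hr : 0 < r) : ∃ a b c d : ℤ, z * lat a b - lat c d + w ≠ 0 ∧ ‖z * lat a b - lat c d + w‖ < r := by
  choose A B hAB using fun n : ℕ => near (n * z)
  obtain ⟨y, -, φ, hφ, hlim⟩ := (isCompact_closedBall (0 : ℂ) 2).tendsto_subseq
    (x := fun n : ℕ => n * z - lat (A n) (B n)) (fun n => by simpa using hAB n)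
  obtain ⟨M, hM⟩ := Metric.cauchySeq_iff'.1 hlim.cauchySeq (r / 8) (by positivity)
  have h1 := hM (M + 1) (by omega)
  obtain ⟨m, hm⟩ := Nat.exists_eq_add_of_lt (hφ (Nat.lt_succ_self M))
  simp only [Function.comp, dist_eq_norm] at h1
  set a := A (φ (M + 1)) - A (φ M)
  set b := B (φ (M + 1)) - B (φ M)
  have e : (φ (M + 1) : ℂ) * z - lat (A (φ (M + 1))) (B (φ (M + 1))) -
      (φ M * z - lat (A (φ M)) (B (φ M))) = ((m + 1 : ℕ) : ℂ) * z - lat a b := by
    rw [lat_sub]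
    have : (φ (M + 1) : ℂ) = φ M + m + 1 := by exact_mod_cast hm
    rw [this]
    push_cast
    ring
  rw [e] at h1
  set h := ((m + 1 : ℕ) : ℂ) * z - lat a b with hh
  have h0 : h ≠ 0 := sub_ne_zero.2 (hz _ (by omega) a b)
  obtain ⟨c, d, hcd⟩ := near ((((r / 2 : ℝ) : ℂ) - w) / h)
  have e2 : z * lat ((m + 1 : ℕ) * c - 0 * d) ((m + 1 : ℕ) * d + 0 * c + 0 * d) -
      lat (a * c - b * d) (a * d + b * c + b * d) + w =
      (r / 2 : ℝ) - h * ((((r / 2 : ℝ) : ℂ) - w) / h - lat c d) := by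
    rw [← lat_mul, ← lat_mul, lat_int, mul_sub h, mul_div_cancel₀ _ h0, hh]
    push_cast
    ring
  have h2 : ‖h * ((((r / 2 : ℝ) : ℂ) - w) / h - lat c d)‖ ≤ r / 8 * 2 := by
    rw [norm_mul]
    gcongr
  have h3 : ‖((r / 2 : ℝ) : ℂ)‖ = r / 2 := by rw [norm_real, Real.norm_of_nonneg (by positivity)]
  refine ⟨_, _, _, _, e2.trans_ne ?_, (congrArg norm e2).trans_lt ?_⟩
  · rw [sub_ne_zero]
    intro h4
    rw [← h4, h3] at h2
    linarith
  · have := norm_sub_le ((r / 2 : ℝ) : ℂ) (h * ((((r / 2 : ℝ) : ℂ) - w) / h - lat c d))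
    linarith

theorem not_both {k : ℕ} (θ : Fin k → ℝ) (x : Fin k → ℂ) (hU : UnifDiscrete (TBG θ x)) :
    ¬ DenseForest (TBG θ x) := by
  rcases k with _ | k
  · exact not_forest θ x 1 (by simp) 1 one_pos fun i => i.elim0
  obtain ⟨r, hr, hU⟩ := hU
  have he : ‖exp (θ 0 * I)‖ = 1 := norm_exp_ofReal_mul_I _
  have he0 : exp (θ 0 * I) ≠ 0 := exp_ne_zero _
  have key : ∀ i, ∃ n : ℕ, 0 < n ∧ ∃ a b : ℤ, n * (exp (θ i * I) / exp (θ 0 * I)) = lat a b := by
    intro i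
    by_contra hc
    push Not at hc
    obtain ⟨a, b, c, d, h1, h2⟩ := dense_sum _ hc ((x i - x 0) / exp (θ 0 * I)) r hr
    have e : exp (θ i * I) * lat a b + x i - (exp (θ 0 * I) * lat c d + x 0) = exp (θ 0 * I) *
        (exp (θ i * I) / exp (θ 0 * I) * lat a b - lat c d + (x i - x 0) / exp (θ 0 * I)) := by
      field_simp
      ring
    have := hU _ ⟨i, a, b, rfl⟩ _ ⟨0, c, d, rfl⟩ (by
      rw [← sub_ne_zero, e]; exact mul_ne_zero he0 h1)
    rw [dist_eq_norm, e, norm_mul, he, one_mul] at this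
    linarith
  choose n hn a b hab using key
  refine not_forest θ x _ he (∏ i, n i) (Finset.prod_pos fun i _ => hn i) fun i => ?_
  obtain ⟨m, hm⟩ := Finset.dvd_prod_of_mem n (Finset.mem_univ i)
  refine ⟨m * a i - 0 * b i, m * b i + 0 * a i + 0 * b i, ?_⟩
  rw [← lat_mul, lat_int, ← hab, hm]
  push_cast
  field_simp

theorem result :
    IsLeast {k : ℕ | 1 ≤ k ∧ ∃ (θ : Fin k → ℝ) (x : Fin k → ℂ), DenseForest (TBG θ x)} 2 ∧
      ∀ (k : ℕ) (θ : Fin k → ℝ) (x : Fin k → ℂ),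
        ¬ (UnifDiscrete (TBG θ x) ∧ DenseForest (TBG θ x)) := by
  refine ⟨⟨⟨one_le_two, exists_two⟩, ?_⟩, fun k θ x h => not_both θ x h.1 h.2⟩
  rintro k ⟨hk, θ, x, h⟩
  by_contra hc
  obtain rfl : k = 1 := by omega
  refine not_forest θ x _ (norm_exp_ofReal_mul_I (θ 0)) 1 one_pos (fun i => ⟨1, 0, ?_⟩) h
  rw [Subsingleton.elim i 0, lat_int]
  simp

end Pool.Agent.Results.MP_b83ca4_nt.Both
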